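import Mathlib
import Pool.Agent.H23.LexCh

set_option autoImplicit false

namespace Pool.Agent.Results.MP_339e98_lc.SCC

open Pool.Agent.H23.DIP

/-- `φ` is a tautology of `A`. -/
def Taut (A : Type) [FLew A] (φ : Fm) : Prop := ∀ v : ℕ → A, ev v φ = 1

/-- `A` is an algebra of the extension of MTL by the axioms `Ax`. -/
def Mdl (Ax : Set Fm) (A : Type) [FLew A] : Prop := Prelin A ∧ ∀ φ ∈ Ax, Taut A φ

/-- Theorems of the extension of MTL by `Ax`. -/
def Thm (Ax : Set Fm) (φ : Fm) : Prop := ∀ (A : Type) [FLew A], Mdl Ax A → Taut A φ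

/-- Single chain completeness. -/
def HasSCC (Ax : Set Fm) : Prop :=
  ∃ (A : Type) (_ : FLew A), Mdl Ax A ∧ (∀ x y : A, x ≤ y ∨ y ≤ x) ∧ ∀ φ, Thm Ax φ ↔ Taut A φ

/-- Negation. -/
def ng (a : Fm) : Fm := a.imp .zero

open Fm in
/-- The axiom of IMTL. -/
def IMTL : Set Fm := {(ng (ng (var 0))).imp (var 0)}

open Fm in
/-- The axioms of product MTL. -/
def PiMTL : Set Fm :=
  {(ng (ng (var 2))).imp ((((var 0).mul (var 2)).imp ((var 1).mul (var 2))).imp
    ((var 0).imp (var 1))), ((var 0).and (ng (var 0))).imp zero}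

def B := Fin 5
def L := Fin 5

instance : LinearOrder B := inferInstanceAs (LinearOrder (Fin 5))
instance : LinearOrder L := inferInstanceAs (LinearOrder (Fin 5))
instance : Fintype B := inferInstanceAs (Fintype (Fin 5))
instance : Fintype L := inferInstanceAs (Fintype (Fin 5))

instance : FLew B where
  toBoundedOrder := inferInstanceAs (BoundedOrder (Fin 5))
  mul (x y : Fin 5) := if x = 4 then y else if y = 4 then x else
    if 5 ≤ x.1 + y.1 then (1 : Fin 5) else (0 : Fin 5)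
  one := (4 : Fin 5)
  imp (x y : Fin 5) := if x ≤ y then (4 : Fin 5) else if x = 4 then y else
    if y = 0 then (4 - x : Fin 5) else (3 : Fin 5)
  mul_assoc := by decide
  mul_comm := by decide
  one_mul := by decide
  mul_one := by decide
  res := by decide
  one_eq := rfl

instance : FLew L where
  toBoundedOrder := inferInstanceAs (BoundedOrder (Fin 5))
  mul (x y : Fin 5) := (⟨x + y - 4, by omega⟩ : Fin 5)
  one := (4 : Fin 5)
  imp (x y : Fin 5) := (⟨min 4 (4 + y - x), by omega⟩ : Fin 5)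
  mul_assoc := by decide
  mul_comm := by decide
  one_mul := by decide
  mul_one := by decide
  res := by decide
  one_eq := rfl

def pw (a : Fm) : ℕ → Fm
  | 0 => .one
  | n + 1 => (pw a n).mul a

theorem ev_pw {A : Type} [FLew A] (v : ℕ → A) (a : Fm) (n : ℕ) : ev v (pw a n) = ev v a ^ n := by
  induction n <;> simp_all [pw, ev, pow_succ]

theorem key {A : Type} [FLew A] (t : Tot A) {e a T d : A} (h2 : e * FLew.imp a ⊥ ≤ a)
    (h4 : e * (T * T * T) ≤ ⊥) (h5 : e * FLew.imp T a ≤ T) (h6 : e * (d * d * (d * d)) ≤ ⊥)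
    (h7 : e * FLew.imp (d * d) ⊥ ≤ d * d) : e ^ 47 ≤ ⊥ := by
  have m : ∀ {x y z w : A}, x ≤ y → z ≤ w → x * z ≤ y * w :=
    fun h k => (mul_mono h _).trans (mul_mono' _ k)
  have s : ∀ {x y z w : A}, x * y ≤ z → e * FLew.imp y z ≤ w → e * x ≤ w :=
    fun h k => (mul_mono' _ ((FLew.res _ _ _).1 h)).trans k
  have a1 : e * (e * (d * d)) ≤ a := (t a (d * d)).elim
    (fun h => s ((mul_mono' _ h).trans ((mul_assoc e _ _).trans_le h6)) h2)
    fun h => (mul_le _ _).trans ((mul_le _ _).trans h)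
  have a2 : e ^ 3 * d ≤ T := (t T d).elim
    (fun h => (s (x := e * (e * d)) ((mul_mono' _ h).trans (by
      simpa only [mul_assoc] using a1)) h5).trans' (le_of_eq (by simp only [pow_succ]; simp [mul_assoc])))
    fun h => (mul_le _ _).trans h
  have a3 : e * (e ^ 10 * d) ≤ d * d := s ((mul_mono' e (m (m a2 a2) a2)).trans h4 |>.trans'
    (le_of_eq (by simp only [pow_succ, pow_zero, one_mul]; ac_rfl))) h7
  have a4 : e ^ 23 * (d * d) ≤ ⊥ := (mul_mono' e (m a3 a3)).trans h6 |>.trans'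
    (le_of_eq (by simp only [pow_succ, pow_zero, one_mul]; ac_rfl))
  exact ((mul_mono' _ (s a4 h7)).trans a4).trans' (le_of_eq (by rw [← pow_succ', ← pow_add]))

open Fm in
theorem neg (Ax : Set Fm) (hB : Mdl Ax B) (hL : Mdl Ax L) : ¬ HasSCC Ax := by
  rintro ⟨A, _, -, t, h⟩
  let a := (((ng (var 0)).imp (var 0)).and (ng (((var 1).mul (var 1)).mul (var 1)))).and
    (((var 1).imp (var 0)).imp (var 1))
  let b := (ng (((var 0).mul (var 0)).mul ((var 0).mul (var 0)))).and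
    ((ng ((var 0).mul (var 0))).imp ((var 0).mul (var 0)))
  obtain ⟨v, hv⟩ := not_forall.1 fun k => absurd
    ((h (ng (pw a 47))).2 k B hB fun n => if n = 0 then (2 : Fin 5) else (3 : Fin 5))
    (by rw [ng, ev, ev_pw, (by decide : ev (A := B) _ a = 1), one_pow]; decide)
  obtain ⟨w, hw⟩ := not_forall.1 fun k => absurd
    ((h (ng (pw b 47))).2 k L hL fun _ => (3 : Fin 5))
    (by rw [ng, ev, ev_pw, (by decide : ev (A := L) _ b = 1), one_pow]; decide)
  simp only [ng, ev, ev_pw, imp_one] at hv hw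
  have : (ev v a ⊓ ev w b) ^ 47 ≤ ⊥ := by
    have i : ev v a ⊓ ev w b ≤ ev v a := inf_le_left
    have j : ev v a ⊓ ev w b ≤ ev w b := inf_le_right
    generalize ev v a ⊓ ev w b = e at i j
    simp only [a, b, ng, ev, le_inf_iff, ← FLew.res] at i j
    exact key t i.1.1 i.1.2 i.2 j.1 j.2
  rcases t (ev v a) (ev w b) with k | k
  exacts [hv (inf_eq_left.2 k ▸ this), hw (inf_eq_right.2 k ▸ this)]

theorem mdl_iff {A : Type} [FLew A] (t : Tot A) : (∀ φ ∈ PiMTL, Taut A φ) ↔ Canc A := by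
  simp only [PiMTL, Set.mem_insert_iff, Set.mem_singleton_iff, forall_eq_or_imp, forall_eq, Taut,
    ev, ng, imp_one]
  refine ⟨fun h => ⟨t, fun x y z k l => ?_⟩, fun c => ⟨fun v => ?_, fun v => ?_⟩⟩
  · have a := h.1 fun n => if n = 0 then x else if n = 1 then y else z
    have b : FLew.imp z ⊥ ≤ ⊥ := (t z (FLew.imp z ⊥)).elim
      (fun e => absurd (le_bot_iff.1 (inf_eq_left.2 e ▸ h.2 fun _ => z)) k)
      fun e => inf_eq_right.2 e ▸ h.2 fun _ => z
    simp only [if_true, one_ne_zero, if_false, OfNat.ofNat_ne_zero, OfNat.ofNat_ne_one] at a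
    rwa [(imp_one _ _).2 b, (imp_one _ _).2 l, one_imp, ← FLew.res, one_mul] at a
  · by_cases e : v 2 = ⊥
    · rw [e, (imp_one _ _).2 le_rfl, one_imp]; exact bot_le
    · refine (le_one' _).trans ((FLew.res _ _ _).1 ((FLew.res _ _ _).1 (c.2 _ _ _ e ?_)))
      rw [one_mul, mul_assoc]
      exact imp_mul _ _
  · by_cases e : v 0 = ⊥
    · simp [e]
    · simp [c.imp_bot e]

theorem result : ¬ HasSCC ∅ ∧ ¬ HasSCC IMTL ∧ HasSCC PiMTL := by
  have pB : Prelin B := by unfold Prelin; decide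
  have pL : Prelin L := by unfold Prelin; decide
  refine ⟨neg _ ⟨pB, by simp⟩ ⟨pL, by simp⟩, neg _ ⟨pB, ?_⟩ ⟨pL, ?_⟩, ?_⟩
  · rintro _ rfl v
    exact (by decide : ∀ x : B, FLew.imp (FLew.imp (FLew.imp x ⊥) ⊥) x = 1) _
  · rintro _ rfl v
    exact (by decide : ∀ x : L, FLew.imp (FLew.imp (FLew.imp x ⊥) ⊥) x = 1) _
  have : ∀ φ : {φ // ¬ Thm PiMTL φ}, ∃ (A : Type) (_ : FLew A), (Canc A ∧ (1 : A) ≠ ⊥) ∧
      ∃ v : ℕ → A, ev v φ.1 ≠ 1 := fun φ => by
    obtain ⟨A, _, h, v, hv⟩ : ∃ (A : Type) (_ : FLew A), Mdl PiMTL A ∧ ∃ v : ℕ → A, ev v φ.1 ≠ 1 := by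
      simpa [Thm, Taut] using φ.2
    obtain ⟨C, _, t, ⟨w, hw⟩, k⟩ := exists_chain h.1 hv
    exact ⟨C, _, ⟨(mdl_iff t).1 fun ψ e => k ψ (h.2 ψ e), fun e =>
      hw (le_antisymm (le_one' _) (e ▸ bot_le))⟩, w, hw⟩
  choose A i c v hv using this
  obtain ⟨_, _⟩ := exists_wellFoundedLT {φ // ¬ Thm PiMTL φ}
  have m : Mdl PiMTL (LP A c) := ⟨LP.canc.1.prelin, (mdl_iff LP.canc.1).2 LP.canc⟩
  exact ⟨LP A c, inferInstance, m, LP.canc.1, fun φ => ⟨fun h => h _ m, fun h =>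
    by_contra fun n => hv ⟨φ, n⟩ (LP.ev_emb _ _ _ (h _))⟩⟩

end Pool.Agent.Results.MP_339e98_lc.SCC
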